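import Pool.Agent.Lib_helper25.ADO.Hered

/-!
No asymptotic `ℓ_p` space, `1 < p < ∞`, is of bounded distortion.  More precisely, every subspace
of such a space contains an arbitrarily distortable subspace.
-/

set_option autoImplicit false

open Filter Topology
open scoped ENNReal

namespace Pool.Agent.Results.MP_a4bf89_an.ArbitrarilyDistortable

universe u

section
variable {X : Type u} [NormedAddCommGroup X] [NormedSpace ℝ X]

/-- `e` is a (Schauder) basis of `X`: every `x` is the sum of exactly one series `∑ a i e i`. -/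
def IsBasis (e : ℕ → X) : Prop :=
  ∀ x : X, ∃! a : ℕ → ℝ, Tendsto (fun n => ∑ i ∈ Finset.range n, a i • e i) atTop (𝓝 x)

/-- `x 0, …, x (n - 1)` is a normalized block basis of `(e i)_{i ≥ n}`: there are
`n ≤ q 0 < q 1 < … < q n` such that `x j` is a linear combination of the `e i` with
`q j ≤ i < q (j + 1)`, and `‖x j‖ = 1`. -/
def IsNormalizedBlockBasis (e : ℕ → X) (n : ℕ) (x : Fin n → X) : Prop :=
  ∃ q : ℕ → ℕ, n ≤ q 0 ∧ (∀ j < n, q j < q (j + 1)) ∧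
    ∀ j : Fin n, x j ∈ Submodule.span ℝ (e '' Set.Ico (q j) (q (j + 1))) ∧ ‖x j‖ = 1

/-- `x 0, …, x (n - 1)` is `K`-equivalent to the unit vector basis of `ℓ_p^n`. -/
def IsEquivLp (K p : ℝ) {n : ℕ} (x : Fin n → X) : Prop :=
  ∃ A B : ℝ, 0 < A ∧ 0 < B ∧ A * B ≤ K ∧ ∀ a : Fin n → ℝ,
    A⁻¹ * (∑ j, |a j| ^ p) ^ (1 / p) ≤ ‖∑ j, a j • x j‖ ∧
      ‖∑ j, a j • x j‖ ≤ B * (∑ j, |a j| ^ p) ^ (1 / p)

/-- `X` is asymptotic `ℓ_p` with respect to `e`. -/
def IsAsymptoticLp (p : ℝ) (e : ℕ → X) : Prop :=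
  ∃ K : ℝ, ∀ (n : ℕ) (x : Fin n → X), IsNormalizedBlockBasis e n x → IsEquivLp K p x

/-- A subspace: closed and infinite dimensional. -/
def IsSubspace (Y : Submodule ℝ X) : Prop :=
  IsClosed (Y : Set X) ∧ ¬ FiniteDimensional ℝ Y

/-- `N` is an equivalent norm on `X`. -/
def IsEquivNorm (N : Seminorm ℝ X) : Prop :=
  ∃ α β : ℝ, 0 < α ∧ 0 < β ∧ ∀ x : X, α * ‖x‖ ≤ N x ∧ N x ≤ β * ‖x‖

/-- `d(Y, N)`: the infimum over the subspaces `Z ⊆ Y` of the supremum of `N x / N y` over the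
vectors `x, y` of the unit sphere of `Z` (in the original norm). -/
noncomputable def d (Y : Submodule ℝ X) (N : Seminorm ℝ X) : ℝ≥0∞ :=
  ⨅ (Z : Submodule ℝ X) (_ : IsSubspace Z ∧ Z ≤ Y),
    ⨆ (x : X) (y : X) (_ : x ∈ Z ∧ y ∈ Z ∧ ‖x‖ = 1 ∧ ‖y‖ = 1), ENNReal.ofReal (N x / N y)

/-- `X` is of `D`-bounded distortion. -/
def IsOfBoundedDistortion (X : Type u) [NormedAddCommGroup X] [NormedSpace ℝ X] (D : ℝ) : Prop :=
  ∀ N : Seminorm ℝ X, IsEquivNorm N → ∀ Y : Submodule ℝ X, IsSubspace Y →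
    d Y N ≤ ENNReal.ofReal D

end

theorem aslp_seq {X : Type u} [NormedAddCommGroup X] [NormedSpace ℝ X] (p : ℝ) (hp : 1 < p)
    (e : ℕ → X) (has : IsAsymptoticLp p e) :
    ∃ K : ℝ, 0 < K ∧ ∀ (n : ℕ) (q : ℕ → ℕ) (c : ℕ → ℕ → ℝ), Monotone q → n ≤ q 0 →
      (∀ j < n, ‖∑ i ∈ Finset.Ico (q j) (q (j + 1)), c j i • e i‖ = 1) →
      ∀ a : ℕ → ℝ,
        K⁻¹ * (∑ j ∈ Finset.range n, |a j| ^ p) ^ (1 / p) ≤
          ‖∑ j ∈ Finset.range n, a j • ∑ i ∈ Finset.Ico (q j) (q (j + 1)), c j i • e i‖ ∧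
        ‖∑ j ∈ Finset.range n, a j • ∑ i ∈ Finset.Ico (q j) (q (j + 1)), c j i • e i‖ ≤
          K * (∑ j ∈ Finset.range n, |a j| ^ p) ^ (1 / p) := by
  classical
  obtain ⟨K, hK⟩ := has
  refine ⟨max K 1, lt_of_lt_of_le one_pos (le_max_right _ _), ?_⟩
  intro n q c hq hn hone a
  have hp0 : 0 < p := by linarith
  set x : Fin n → X := fun j => ∑ i ∈ Finset.Ico (q j) (q (j + 1)), c j i • e i with hx
  obtain ⟨A, B, hA, hB, hAB, hest⟩ := hK n x ⟨q, hn, fun j hj => by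
    by_contra hc
    have h1 : Finset.Ico (q j) (q (j + 1)) = ∅ := Finset.Ico_eq_empty (by omega)
    have h2 := hone j hj
    rw [h1, Finset.sum_empty, norm_zero] at h2
    exact zero_ne_one h2, fun j => ⟨by
      apply Submodule.sum_mem
      intro i hi
      apply Submodule.smul_mem
      apply Submodule.subset_span
      exact ⟨i, by rw [Finset.mem_Ico] at hi; exact hi, rfl⟩, hone j j.2⟩⟩
  have hS : ∑ j ∈ Finset.range n, |a j| ^ p = ∑ j : Fin n, |a j| ^ p := Finset.sum_range _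
  have hV : ∑ j ∈ Finset.range n, a j • ∑ i ∈ Finset.Ico (q j) (q (j + 1)), c j i • e i =
      ∑ j : Fin n, a j • x j := Finset.sum_range _
  rw [hS, hV]
  rcases Nat.eq_zero_or_pos n with h0 | hpos
  · subst h0
    have : (0 : ℝ) ^ (1 / p) = 0 := Real.zero_rpow (by positivity)
    simp only [Finset.univ_eq_empty, Finset.sum_empty, norm_zero, this, mul_zero, le_refl,
      and_self]
  -- `A` and `B` are at least one
  have h1 : ∑ j : Fin n, |(Pi.single (⟨0, hpos⟩ : Fin n) (1 : ℝ) : Fin n → ℝ) j| ^ p = 1 := by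
    rw [Finset.sum_eq_single (⟨0, hpos⟩ : Fin n)]
    · rw [Pi.single_eq_same, abs_one, Real.one_rpow]
    · intro j _ hj
      rw [Pi.single_eq_of_ne hj, abs_zero, Real.zero_rpow hp0.ne']
    · intro h
      exact absurd (Finset.mem_univ _) h
  have h2 : ∑ j : Fin n, (Pi.single (⟨0, hpos⟩ : Fin n) (1 : ℝ) : Fin n → ℝ) j • x j =
      x ⟨0, hpos⟩ := by
    rw [Finset.sum_eq_single (⟨0, hpos⟩ : Fin n)]
    · rw [Pi.single_eq_same, one_smul]
    · intro j _ hj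
      rw [Pi.single_eq_of_ne hj, zero_smul]
    · intro h
      exact absurd (Finset.mem_univ _) h
  have h3 : ‖x ⟨0, hpos⟩‖ = 1 := hone 0 hpos
  have h4 := hest (Pi.single (⟨0, hpos⟩ : Fin n) (1 : ℝ))
  rw [h1, h2, h3, Real.one_rpow, mul_one, mul_one] at h4
  have hA1 : 1 ≤ A := (inv_le_one₀ hA).1 h4.1
  have hB1 : 1 ≤ B := h4.2
  have hAK : A ≤ max K 1 := by
    have : A ≤ A * B := le_mul_of_one_le_right hA.le hB1
    exact (this.trans hAB).trans (le_max_left _ _)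
  have hBK : B ≤ max K 1 := by
    have : B ≤ A * B := le_mul_of_one_le_left hB.le hA1
    exact (this.trans hAB).trans (le_max_left _ _)
  obtain ⟨h5, h6⟩ := hest fun j => a j
  have h7 : 0 ≤ (∑ j : Fin n, |a j| ^ p) ^ (1 / p) := by positivity
  constructor
  · refine le_trans ?_ h5
    apply mul_le_mul_of_nonneg_right _ h7
    exact (inv_le_inv₀ (lt_of_lt_of_le one_pos (le_max_right _ _)) hA).2 hAK
  · exact h6.trans (mul_le_mul_of_nonneg_right hBK h7)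

theorem main (p : ℝ) (hp : 1 < p) (X : Type u) [NormedAddCommGroup X] [NormedSpace ℝ X]
    (e : ℕ → X) (he : IsBasis e) (has : IsAsymptoticLp p e)
    (W : Submodule ℝ X) (hW : IsSubspace W) :
    ∃ V : Submodule ℝ X, IsSubspace V ∧ V ≤ W ∧
      ∀ D : ℝ, ∃ N : Seminorm ℝ X, IsEquivNorm N ∧ ENNReal.ofReal D < d V N := by
  classical
  obtain ⟨K, hK0, hK⟩ := aslp_seq p hp e has
  obtain ⟨K', hK', hAs⟩ := Pool.Agent.Lib_helper25.AD.own_aslp p hp X e
    (Pool.Agent.Lib_helper25.AD.own_inj e he) K hK0 hK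
  obtain ⟨V, hVW, hVc, hV, hVD⟩ := Pool.Agent.Lib_helper25.AD.own_diag
    (fun W D N => ∀ Z : Submodule ℝ X, Z ≤ W → IsClosed (Z : Set X) →
      ¬ FiniteDimensional ℝ Z → ∃ z ∈ Z, ∃ w ∈ Z, D * (N w * ‖z‖) < N z * ‖w‖)
    (fun W D N => Iff.rfl) IsEquivNorm (by
      intro W' hWc' hW' D hD
      by_contra hcon
      apply Pool.Agent.Lib_helper25.AD.own_hered e he p K' hp hK' hAs W' hWc' hW' D hD
      intro N hN Y hYW hYc hY
      by_contra hZ
      apply hcon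
      refine ⟨N, hN, Y, hYW, hYc, hY, ?_⟩
      intro Z hZY hZc hZi
      by_contra hno
      push Not at hno
      exact hZ ⟨Z, hZY, hZc, hZi, hno⟩) W hW.1 hW.2
  refine ⟨V, ⟨hVc, hV⟩, hVW, fun D => ?_⟩
  obtain ⟨N, hN, hP⟩ := hVD (⌈D⌉₊ + 1)
  refine ⟨N, hN, ?_⟩
  have hlt : ENNReal.ofReal D < ENNReal.ofReal ((⌈D⌉₊ + 1 : ℕ) : ℝ) := by
    rw [ENNReal.ofReal_lt_ofReal_iff (by positivity)]
    push_cast
    exact (Nat.le_ceil D).trans_lt (lt_add_one _)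
  refine hlt.trans_le ?_
  unfold d
  refine le_iInf fun Z => le_iInf fun hZ => ?_
  obtain ⟨z, hz, w, hw, hzw⟩ := hP Z hZ.2 hZ.1.1 hZ.1.2
  obtain ⟨α, β, hα, hβ, hαβ⟩ := hN
  have hz0 : z ≠ 0 := by
    rintro rfl
    simp at hzw
  have hw0 : w ≠ 0 := by
    rintro rfl
    simp at hzw
  have hz1 : 0 < ‖z‖ := norm_pos_iff.2 hz0
  have hw1 : 0 < ‖w‖ := norm_pos_iff.2 hw0
  have hNw : 0 < N w := lt_of_lt_of_le (mul_pos hα hw1) (hαβ w).1
  have e1 : N (‖z‖⁻¹ • z) / N (‖w‖⁻¹ • w) = N z * ‖w‖ / (N w * ‖z‖) := by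
    rw [map_smul_eq_mul, map_smul_eq_mul, norm_inv, norm_norm, norm_inv, norm_norm]
    field_simp
  have e2 : ((⌈D⌉₊ + 1 : ℕ) : ℝ) ≤ N (‖z‖⁻¹ • z) / N (‖w‖⁻¹ • w) := by
    rw [e1, le_div_iff₀ (mul_pos hNw hz1)]
    exact hzw.le
  refine (ENNReal.ofReal_le_ofReal e2).trans ?_
  refine le_iSup_of_le (‖z‖⁻¹ • z) (le_iSup_of_le (‖w‖⁻¹ • w) (le_iSup_of_le ?_ le_rfl))
  refine ⟨Z.smul_mem _ hz, Z.smul_mem _ hw, ?_, ?_⟩
  · rw [norm_smul, norm_inv, norm_norm, inv_mul_cancel₀ hz1.ne']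
  · rw [norm_smul, norm_inv, norm_norm, inv_mul_cancel₀ hw1.ne']

/-- Let `1 < p < ∞` and let `X` be a Banach space with a basis `e` with respect to which `X` is
asymptotic `ℓ_p`.  Then `X` is not of bounded distortion.  Moreover every subspace `W` of `X`
contains a subspace `V` such that for every `D` there is an equivalent norm `N` on `X` with
`d(V, N) > D`. -/
theorem result (p : ℝ) (hp : 1 < p) (X : Type u) [NormedAddCommGroup X] [NormedSpace ℝ X]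
    [CompleteSpace X] (e : ℕ → X) (he : IsBasis e) (has : IsAsymptoticLp p e) :
    (∀ D : ℝ, ¬ IsOfBoundedDistortion X D) ∧
    ∀ W : Submodule ℝ X, IsSubspace W →
      ∃ V : Submodule ℝ X, IsSubspace V ∧ V ≤ W ∧
        ∀ D : ℝ, ∃ N : Seminorm ℝ X, IsEquivNorm N ∧ ENNReal.ofReal D < d V N := by
  have hmain := main p hp X e he has
  refine ⟨fun D hD => ?_, hmain⟩
  have htop : IsSubspace (⊤ : Submodule ℝ X) := by
    refine ⟨isClosed_univ, fun hfd => ?_⟩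
    have hli : LinearIndependent ℝ e := Pool.Agent.Lib_helper25.AD.own_inj e he
    have hX : FiniteDimensional ℝ X := Submodule.topEquiv.finiteDimensional
    have h2 : Finite ℕ := hli.finite
    exact not_finite ℕ
  obtain ⟨V, hV, -, hVD⟩ := hmain ⊤ htop
  obtain ⟨N, hN, hlt⟩ := hVD D
  exact absurd (hD N hN V hV) (not_le.2 hlt)

end Pool.Agent.Results.MP_a4bf89_an.ArbitrarilyDistortable
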